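import Pool.Agent.W475.BG.Stm

/-!
# Project BG, part UPP (adapted from `Pool.Agent.W636.BH.UPP`)
-/

set_option autoImplicit false

namespace Pool.Agent.W308.BG

open Pool.Agent.W475.BG Complex MeasureTheory Filter Topology
open Pool.Agent.W475.BH (Vh)

theorem prof {κ l θ y : ℝ} (hκ : 0 < κ) (hl : 0 < l) (hθ : 0 ≤ θ) (hy : y ≤ l / 2) :
    y * θ - κ * y ^ 2 ≤ l ^ 2 * Vh κ (θ / l) := by
  unfold Vh
  have h1 : |θ / l| = θ / l := abs_of_nonneg (by positivity)
  rw [h1]
  split_ifs with h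
  · have e : l ^ 2 * ((θ / l) ^ 2 / (4 * κ)) = θ ^ 2 / (4 * κ) := by field_simp
    rw [e, le_div_iff₀ (by positivity)]
    nlinarith [sq_nonneg (θ - 2 * κ * y)]
  · push Not at h
    have e : l ^ 2 * (θ / l / 2 - κ / 4) = l * θ / 2 - κ * l ^ 2 / 4 := by field_simp
    rw [e]
    rw [lt_div_iff₀ hl] at h
    have h2 : 0 ≤ (l / 2 - y) * (θ - κ * (l / 2 + y)) := by
      apply mul_nonneg (by linarith)
      nlinarith
    nlinarith

theorem profd {d : ℕ} (hd : 1 ≤ d) {κ l θ y : ℝ} (hκ : 0 < κ) (hl : 0 < l) (hθ : 0 ≤ θ)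
    (hy : y ≤ d * l / 2) : y * θ - κ * y ^ 2 ≤ l ^ 2 * Vd d κ (θ / l) := by
  have hd0 : (0 : ℝ) < d := by exact_mod_cast hd
  have h1 := prof (κ := d * κ) (l := l) (θ := θ) (y := y / d) (by positivity) hl hθ
    (by rw [div_le_iff₀ hd0]; linarith)
  unfold Vd
  have h2 : y * θ - κ * y ^ 2 = d * (y / d * θ - d * κ * (y / d) ^ 2) := by
    field_simp
  rw [h2]
  calc (d : ℝ) * (y / d * θ - d * κ * (y / d) ^ 2) ≤ d * (l ^ 2 * Vh (d * κ) (θ / l)) :=
        mul_le_mul_of_nonneg_left h1 hd0.le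
    _ = _ := by ring

theorem log2pi : Real.log (2 * Real.pi) ≤ 2 ∧ 0 ≤ Real.log (2 * Real.pi) := by
  have hpi := Real.pi_lt_d2
  have hpi3 := Real.pi_gt_three
  constructor
  · rw [Real.log_le_iff_le_exp (by positivity)]
    have h1 : (2.7182818283 : ℝ) < Real.exp 1 := Real.exp_one_gt_d9
    have h2 : Real.exp 2 = Real.exp 1 * Real.exp 1 := by rw [← Real.exp_add]; norm_num
    rw [h2]
    nlinarith
  · apply Real.log_nonneg; linarith

theorem tm_norm (D : Dat) (κ t : ℝ) (u : ℂ) {n : ℕ} (hn : 1 ≤ n) : ‖tm D κ t u n‖ ≤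
    ‖D.a n‖ * Real.exp (((be D t).re - Real.log n) * u.re - (be D t).im * u.im -
      κ * (((be D t).re - Real.log n) ^ 2 - (be D t).im ^ 2)) := by
  unfold tm
  rw [norm_mul, norm_mul, Complex.norm_natCast_cpow_of_pos (by omega), Complex.norm_exp]
  have h1 : ((-(1 / 2) - I * t : ℂ)).re = -(1 / 2) := by simp
  rw [h1]
  have h2 : (n : ℝ) ^ (-(1 / 2) : ℝ) ≤ 1 :=
    Real.rpow_le_one_of_one_le_of_nonpos (by exact_mod_cast hn) (by norm_num)
  have h3 : ((be D t - (Real.log n : ℂ)) * u - (κ : ℂ) * (be D t - (Real.log n : ℂ)) ^ 2).re =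
      ((be D t).re - Real.log n) * u.re - (be D t).im * u.im -
      κ * (((be D t).re - Real.log n) ^ 2 - (be D t).im ^ 2) := by
    simp only [Complex.sub_re, Complex.mul_re, Complex.sub_im, Complex.ofReal_re,
      Complex.ofReal_im, pow_two, Complex.mul_im]
    ring
  rw [h3]
  refine mul_le_mul_of_nonneg_right ?_ (Real.exp_pos _).le
  calc ‖D.a n‖ * (n : ℝ) ^ (-(1 / 2) : ℝ) ≤ ‖D.a n‖ * 1 := by
        gcongr
    _ = _ := mul_one _

theorem upp (D : Dat) (hD : Ok D) (h0 : S_SYM D) (h1 : S_STIR D) (h2 : S_LOC D) : S_UPP D := by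
  intro κ hκ K hK
  obtain ⟨K', T1, hK', hT1, hst⟩ := h1
  obtain ⟨M, T2, hM, hT2, hloc⟩ := h2 κ hκ K hK
  obtain ⟨A0, hA0, hA1⟩ := hD.gr
  have hd := hD.hd
  have hd0 : (1 : ℝ) ≤ D.d := by exact_mod_cast hd
  set Δ : ℝ := D.d + |Real.log D.Q| + 1 with hΔ
  have hΔ0 : 0 < Δ := by
    have := abs_nonneg (Real.log D.Q)
    linarith
  set C1 : ℝ := 2 * Δ * K + 2 * κ * Δ * (D.d + M) + κ * Δ ^ 2 with hC1
  have hC1pos : 0 < C1 := by positivity
  have hMA : 0 ≤ A0 * M := by positivity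
  refine ⟨M + (C1 + A0 * M) + 2, max (max T1 T2) (max K' 3), by positivity,
    le_trans hT2 ((le_max_right _ _).trans (le_max_left _ _)), ?_⟩
  intro t ht
  have htT1 : T1 ≤ t := ((le_max_left _ _).trans (le_max_left _ _)).trans ht
  have htT2 : T2 ≤ t := ((le_max_right _ _).trans (le_max_left _ _)).trans ht
  have htK : K' ≤ t := ((le_max_left _ _).trans (le_max_right _ _)).trans ht
  have ht3 : 3 ≤ t := ((le_max_right _ _).trans (le_max_right _ _)).trans ht
  have ht0 : 0 < t := by linarith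
  have hl1 : 1 ≤ Real.log t := by
    rw [Real.le_log_iff_exp_le ht0]
    have := Real.exp_one_lt_d9
    linarith
  set l := Real.log t with hl
  have hl0 : 0 < l := by linarith
  -- the case of nonnegative real part
  have key : ∀ u : ℂ, ‖u‖ ≤ K * l → 0 ≤ u.re →
      ‖XK D κ (I * t + u)‖ ≤ ‖HH D (I * t)‖ *
        Real.exp (l ^ 2 * Vd D.d κ (u.re / l) + (M + (C1 + A0 * M) + 2) * l) := by
    intro u hu hre
    have hbe := (hst t htT1).2.1
    have hKt : K' / t ≤ 1 := by rw [div_le_one ht0]; exact htK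
    have hre1 : |(be D t).re - ((D.d : ℝ) * Real.log (t / (2 * Real.pi)) / 2 + Real.log D.Q)| ≤ 1 := by
      have := (Complex.abs_re_le_norm _).trans (hbe.trans hKt)
      simpa using this
    have him1 : |(be D t).im - (D.d : ℝ) * Real.pi / 4| ≤ 1 := by
      have := (Complex.abs_im_le_norm _).trans (hbe.trans hKt)
      simpa using this
    have hlog : Real.log (t / (2 * Real.pi)) = l - Real.log (2 * Real.pi) := by
      rw [Real.log_div ht0.ne' (by positivity)]
    obtain ⟨hp1, hp2⟩ := log2pi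
    have hpi := Real.pi_lt_d2
    have hpi3 := Real.pi_gt_three
    rw [hlog] at hre1
    rw [abs_le] at hre1 him1
    set a := (be D t).re with ha
    set b := (be D t).im with hb
    set δ := a - D.d * l / 2 with hδ
    have hQa := le_abs_self (Real.log D.Q)
    have hQb := neg_abs_le (Real.log D.Q)
    have hdl1 : (D.d : ℝ) * Real.log (2 * Real.pi) ≤ D.d * 2 :=
      mul_le_mul_of_nonneg_left hp1 (by linarith)
    have hdl2 : 0 ≤ (D.d : ℝ) * Real.log (2 * Real.pi) := by positivity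
    have hdp1 : (D.d : ℝ) * Real.pi ≤ D.d * 4 :=
      mul_le_mul_of_nonneg_left (by linarith) (by linarith)
    have hdp2 : 0 ≤ (D.d : ℝ) * Real.pi := by positivity
    have hδ1 : -Δ ≤ δ := by
      have := hre1.1
      rw [hδ, hΔ]
      nlinarith
    have hδ2 : δ ≤ Δ := by
      have := hre1.2
      rw [hδ, hΔ]
      nlinarith
    have hab := abs_nonneg (Real.log D.Q)
    have hb1 : -Δ ≤ b := by
      have := him1.1
      rw [hΔ]
      linarith
    have hb2 : b ≤ Δ := by
      have := him1.2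
      rw [hΔ]
      linarith
    have hure : u.re ≤ K * l := (Complex.re_le_norm u).trans hu
    have huim : |u.im| ≤ K * l := (Complex.abs_im_le_norm u).trans hu
    set A := l ^ 2 * Vd D.d κ (u.re / l) with hA
    have hA0' : 0 ≤ A := by
      have := profd (d := D.d) hd (κ := κ) (l := l) (θ := u.re) (y := 0) hκ hl0 hre (by positivity)
      simpa using this
    have hterm : ∀ n ∈ Finset.Icc 1 ⌊t ^ M⌋₊, ‖tm D κ t u n‖ ≤
        Real.exp (A + (C1 + A0 * M) * l) := by
      intro n hn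
      rw [Finset.mem_Icc] at hn
      have hn1 : (1 : ℝ) ≤ n := by exact_mod_cast hn.1
      have hnM : (n : ℝ) ≤ t ^ M :=
        (Nat.cast_le.2 hn.2).trans (Nat.floor_le (by positivity))
      have hL0 : 0 ≤ Real.log n := Real.log_nonneg hn1
      have hLM : Real.log n ≤ M * l := by
        have := Real.log_le_log (by linarith) hnM
        rwa [Real.log_rpow ht0] at this
      have han : ‖D.a n‖ ≤ Real.exp (A0 * M * l) := by
        refine (hA1 n hn.1).trans ?_
        rw [Real.rpow_def_of_pos (by linarith)]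
        refine Real.exp_le_exp.2 ?_
        calc Real.log n * A0 ≤ (M * l) * A0 := mul_le_mul_of_nonneg_right hLM hA0
          _ = _ := by ring
      have hexp : ((be D t).re - Real.log n) * u.re - (be D t).im * u.im -
          κ * (((be D t).re - Real.log n) ^ 2 - (be D t).im ^ 2) ≤ A + C1 * l := by
        set L := Real.log n with hLdef
        set y := D.d * l / 2 - L with hy
        have hpr := profd (d := D.d) hd (κ := κ) (l := l) (θ := u.re) (y := y) hκ hl0 hre
          (by linarith)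
        rw [← hA] at hpr
        have haL : a - L = y + δ := by rw [hδ, hy]; ring
        rw [← ha, ← hb, haL]
        have e1 : δ * u.re ≤ Δ * (K * l) := by
          calc δ * u.re ≤ Δ * u.re := mul_le_mul_of_nonneg_right hδ2 hre
            _ ≤ Δ * (K * l) := mul_le_mul_of_nonneg_left hure hΔ0.le
        have e2 : -(b * u.im) ≤ Δ * (K * l) := by
          have h3 : |b * u.im| ≤ Δ * (K * l) := by
            rw [abs_mul]
            exact mul_le_mul (abs_le.2 ⟨hb1, hb2⟩) huim (abs_nonneg _) hΔ0.le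
          linarith [(abs_le.1 h3).1]
        have e3 : -(2 * y * δ) ≤ 2 * (((D.d + M) * l) * Δ) := by
          have hMl : 0 ≤ M * l := by positivity
          have hdl : 0 ≤ D.d * l := by positivity
          have hyabs : |y| ≤ (D.d + M) * l := by
            rw [abs_le, add_mul]; constructor <;> linarith
          have h3 : |y * δ| ≤ ((D.d + M) * l) * Δ := by
            rw [abs_mul]
            exact mul_le_mul hyabs (abs_le.2 ⟨hδ1, hδ2⟩) (abs_nonneg _) (by positivity)
          linarith [(abs_le.1 h3).1]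
        have e4 : b ^ 2 ≤ Δ ^ 2 := by
          have : |b| ≤ Δ := abs_le.2 ⟨hb1, hb2⟩
          calc b ^ 2 = |b| ^ 2 := (sq_abs b).symm
            _ ≤ Δ ^ 2 := by gcongr
        have e5 : κ * (-(2 * y * δ)) ≤ κ * (2 * (((D.d + M) * l) * Δ)) := by gcongr
        have e6 : κ * b ^ 2 ≤ κ * Δ ^ 2 := by gcongr
        have e7 : κ * Δ ^ 2 ≤ κ * Δ ^ 2 * l := by
          have := mul_le_mul_of_nonneg_left hl1 (by positivity : (0 : ℝ) ≤ κ * Δ ^ 2)
          linarith
        have e8 : 0 ≤ κ * δ ^ 2 := by positivity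
        have e9 : (y + δ) * u.re - b * u.im - κ * ((y + δ) ^ 2 - b ^ 2) =
            (y * u.re - κ * y ^ 2) + δ * u.re + -(b * u.im) + κ * (-(2 * y * δ)) - κ * δ ^ 2 +
              κ * b ^ 2 := by ring
        have e10 : C1 * l = Δ * (K * l) + Δ * (K * l) + κ * (2 * (((D.d + M) * l) * Δ)) +
            κ * Δ ^ 2 * l := by
          rw [hC1]; ring
        rw [e9, e10]
        linarith
      refine (tm_norm D κ t u hn.1).trans ?_
      calc ‖D.a n‖ * Real.exp (((be D t).re - Real.log n) * u.re - (be D t).im * u.im -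
          κ * (((be D t).re - Real.log n) ^ 2 - (be D t).im ^ 2))
          ≤ Real.exp (A0 * M * l) * Real.exp (A + C1 * l) :=
            mul_le_mul han (Real.exp_le_exp.2 hexp) (Real.exp_pos _).le (Real.exp_pos _).le
        _ = _ := by rw [← Real.exp_add]; congr 1; ring
    have hN : ((⌊t ^ M⌋₊ : ℕ) : ℝ) ≤ Real.exp (M * l) := by
      have h3 : t ^ M = Real.exp (M * l) := by
        rw [hl, mul_comm, ← Real.rpow_def_of_pos ht0]
      rw [← h3]
      exact Nat.floor_le (by positivity)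
    set Sg := ∑ n ∈ Finset.Icc 1 ⌊t ^ M⌋₊, ‖tm D κ t u n‖ with hSg
    have hSg1 : Sg ≤ Real.exp (M * l + (A + (C1 + A0 * M) * l)) := by
      rw [hSg]
      calc ∑ n ∈ Finset.Icc 1 ⌊t ^ M⌋₊, ‖tm D κ t u n‖
          ≤ ∑ n ∈ Finset.Icc 1 ⌊t ^ M⌋₊, Real.exp (A + (C1 + A0 * M) * l) :=
            Finset.sum_le_sum hterm
        _ = (⌊t ^ M⌋₊ : ℝ) * Real.exp (A + (C1 + A0 * M) * l) := by
            rw [Finset.sum_const, Nat.card_Icc, nsmul_eq_mul]; simp
        _ ≤ Real.exp (M * l) * Real.exp (A + (C1 + A0 * M) * l) := by gcongr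
        _ = _ := by rw [← Real.exp_add]
    have hSg0 : 0 ≤ Sg := Finset.sum_nonneg fun _ _ => norm_nonneg _
    have hS : ‖∑ n ∈ Finset.Icc 1 ⌊t ^ M⌋₊, tm D κ t u n‖ ≤ Sg := norm_sum_le _ _
    have hl2 := hloc t htT2 u hu hre
    rw [← hSg] at hl2
    have ht9 : t ^ (-(9 / 10) : ℝ) ≤ 1 :=
      Real.rpow_le_one_of_one_le_of_nonpos (by linarith) (by norm_num)
    have ht10 : t ^ (-10 : ℝ) ≤ 1 :=
      Real.rpow_le_one_of_one_le_of_nonpos (by linarith) (by norm_num)
    have h5 : ‖XK D κ (I * t + u)‖ ≤ ‖HH D (I * t)‖ * (2 * Sg + 1) := by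
      have h6 : ‖XK D κ (I * t + u)‖ ≤
          ‖XK D κ (I * t + u) - HH D (I * t) * ∑ n ∈ Finset.Icc 1 ⌊t ^ M⌋₊, tm D κ t u n‖ +
          ‖HH D (I * t) * ∑ n ∈ Finset.Icc 1 ⌊t ^ M⌋₊, tm D κ t u n‖ := by
        have := norm_add_le (XK D κ (I * t + u) -
          HH D (I * t) * ∑ n ∈ Finset.Icc 1 ⌊t ^ M⌋₊, tm D κ t u n)
          (HH D (I * t) * ∑ n ∈ Finset.Icc 1 ⌊t ^ M⌋₊, tm D κ t u n)
        simpa using this
      rw [norm_mul] at h6
      refine h6.trans ((add_le_add hl2 (mul_le_mul_of_nonneg_left hS (norm_nonneg _))).trans ?_)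
      rw [← mul_add]
      refine mul_le_mul_of_nonneg_left ?_ (norm_nonneg _)
      have : t ^ (-(9 / 10) : ℝ) * Sg ≤ 1 * Sg := mul_le_mul_of_nonneg_right ht9 hSg0
      linarith
    refine h5.trans (mul_le_mul_of_nonneg_left ?_ (norm_nonneg _))
    have hE1 : 1 ≤ Real.exp (M * l + (A + (C1 + A0 * M) * l)) := by
      apply Real.one_le_exp
      positivity
    have hE3 : (3 : ℝ) ≤ Real.exp (2 * l) := by
      have h7 : Real.exp 2 ≤ Real.exp (2 * l) := Real.exp_le_exp.2 (by linarith)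
      have h8 : (2 : ℝ) + 1 ≤ Real.exp 2 := Real.add_one_le_exp 2
      linarith
    calc 2 * Sg + 1 ≤ 3 * Real.exp (M * l + (A + (C1 + A0 * M) * l)) := by linarith
      _ ≤ Real.exp (2 * l) * Real.exp (M * l + (A + (C1 + A0 * M) * l)) := by gcongr
      _ = Real.exp (A + (M + (C1 + A0 * M) + 2) * l) := by rw [← Real.exp_add]; congr 1; ring
  intro u hu
  by_cases hre : 0 ≤ u.re
  · exact key u hu hre
  · push Not at hre
    obtain ⟨-, heven, -⟩ := h0 κ hκ
    set v : ℂ := -(starRingEnd ℂ) u with hv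
    have hvn : ‖v‖ = ‖u‖ := by rw [hv, norm_neg, Complex.norm_conj]
    have hvre : v.re = -u.re := by rw [hv]; simp
    have h3 : I * t + v = -((starRingEnd ℂ) (I * t + u)) := by
      rw [hv, map_add, map_mul, Complex.conj_I, Complex.conj_ofReal]; ring
    have h4 : ‖XK D κ (I * t + v)‖ = ‖XK D κ (I * t + u)‖ := by
      rw [h3, heven, norm_mul, Complex.norm_conj, Complex.conj_conj, hD.hw, one_mul]
    have h5 := key v (by rw [hvn]; exact hu) (by rw [hvre]; linarith)
    rw [h4] at h5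
    have h6 : Vd D.d κ (v.re / l) = Vd D.d κ (u.re / l) := by
      unfold Vd Vh
      rw [hvre, neg_div, abs_neg, neg_sq]
    rw [h6] at h5
    exact h5

end Pool.Agent.W308.BG
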